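import Pool.Agent.Y21.CUB.C

/-! # The median inequality for the sum-of-digits measures, with all equality cases and their number

`P t` are the measures of the question, as functions `ℤ → ℝ`. The letters `true`, `false` stand for
the binary digits `1`, `0`.
-/

set_option autoImplicit false

namespace Pool.Agent.Results.MP_23af5d_nt.MedianInequality

open Finset W93.CU Pool.Agent.Y21.CUB

/-- The measures `P_t`: `P_1 = δ_0`, `P_{2n} = P_n` and
`P_{2n+1}(d) = P_n(d-1) / 2 + P_{n+1}(d+1) / 2`. -/
noncomputable def P (t : ℕ) : ℤ → ℝ :=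
  if t ≤ 1 then fun d => if d = 0 then 1 else 0
  else if t % 2 = 0 then P (t / 2)
  else fun d => P (t / 2) (d - 1) / 2 + P (t / 2 + 1) (d + 1) / 2
termination_by t
decreasing_by all_goals omega

/-- The odd number with the binary digits `1 v 1` (highest digit first). -/
def num (v : List Bool) : ℕ := 2 * v.foldl (fun n b => 2 * n + b.toNat) 1 + 1

lemma P_one (d : ℤ) : P 1 d = if d = 0 then 1 else 0 := by
  rw [P, if_pos le_rfl]

lemma P_even (n : ℕ) (hn : 1 ≤ n) : P (2 * n) = P n := by
  rw [P, if_neg (by omega), if_pos (by omega), show 2 * n / 2 = n by omega]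

lemma P_odd (n : ℕ) (hn : 1 ≤ n) (d : ℤ) :
    P (2 * n + 1) d = P n (d - 1) / 2 + P (n + 1) (d + 1) / 2 := by
  rw [P, if_neg (by omega), if_neg (by omega), show (2 * n + 1) / 2 = n by omega]

/-- the number with a leading one and the digits of the word below it, lowest digit first -/
def val1 : List Bool → ℕ
  | [] => 1
  | true :: w => 2 * val1 w + 1
  | false :: w => 2 * val1 w

lemma val1_pos (w : List Bool) : 1 ≤ val1 w := by
  induction w with
  | nil => exact le_rfl
  | cons b w ih => cases b <;> simp only [val1] <;> omega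

lemma val1_cons (b : Bool) (w : List Bool) : val1 (b :: w) = 2 * val1 w + b.toNat := by
  cases b <;> simp [val1]

lemma foldl_val1 (v : List Bool) : v.foldl (fun n b => 2 * n + b.toNat) 1 = val1 v.reverse := by
  induction v using List.reverseRecOn with
  | nil => rfl
  | append_singleton v b ih =>
    rw [List.foldl_append, ih, List.reverse_append]
    simp [val1_cons]

lemma num_eq (v : List Bool) : num v = 2 * val1 v.reverse + 1 := by
  unfold num; rw [foldl_val1]

lemma base_ge (k : ℤ) : HasSum (fun j : ℕ => P 1 (k + j)) (one0 k) := by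
  unfold one0
  by_cases hk : k ≤ 0
  · rw [if_pos hk]
    obtain ⟨n, hn⟩ := Int.eq_ofNat_of_zero_le (show 0 ≤ -k by omega)
    have : (fun j : ℕ => P 1 (k + j)) = fun j : ℕ => if j = n then (1 : ℝ) else 0 := by
      funext j
      rw [P_one]
      congr 1
      apply propext
      omega
    rw [this]
    exact hasSum_ite_eq n 1
  · rw [if_neg hk]
    have : (fun j : ℕ => P 1 (k + j)) = fun j : ℕ => (0 : ℝ) := by
      funext j
      rw [P_one, if_neg (by omega)]
    rw [this]
    exact hasSum_zero

lemma base_le (k : ℤ) : HasSum (fun j : ℕ => P 1 (k - j)) (1 - one0 (k + 1)) := by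
  unfold one0
  by_cases hk : k + 1 ≤ 0
  · rw [if_pos hk, sub_self]
    have : (fun j : ℕ => P 1 (k - j)) = fun j : ℕ => (0 : ℝ) := by
      funext j
      rw [P_one, if_neg (by omega)]
    rw [this]
    exact hasSum_zero
  · rw [if_neg hk, sub_zero]
    obtain ⟨n, hn⟩ := Int.eq_ofNat_of_zero_le (show 0 ≤ k by omega)
    have : (fun j : ℕ => P 1 (k - j)) = fun j : ℕ => if j = n then (1 : ℝ) else 0 := by
      funext j
      rw [P_one]
      congr 1
      apply propext
      omega
    rw [this]
    exact hasSum_ite_eq n 1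

lemma step_ge (a : ℕ) (ha : 1 ≤ a) (α β : ℝ) (k : ℤ)
    (h1 : HasSum (fun j : ℕ => P a (k - 1 + j)) α)
    (h2 : HasSum (fun j : ℕ => P (a + 1) (k + 1 + j)) β) :
    HasSum (fun j : ℕ => P (2 * a + 1) (k + j)) (1 / 2 * α + (1 - 1 / 2) * β) := by
  have e : (fun j : ℕ => P (2 * a + 1) (k + j)) = fun j : ℕ =>
      1 / 2 * P a (k - 1 + j) + (1 - 1 / 2) * P (a + 1) (k + 1 + j) := by
    funext j
    rw [P_odd a ha, show k + (j : ℤ) - 1 = k - 1 + j by ring,
      show k + (j : ℤ) + 1 = k + 1 + j by ring]
    ring
  rw [e]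
  exact (h1.mul_left _).add (h2.mul_left _)

lemma step_le (a : ℕ) (ha : 1 ≤ a) (α β : ℝ) (k : ℤ)
    (h1 : HasSum (fun j : ℕ => P a (k - 1 - j)) (1 - α))
    (h2 : HasSum (fun j : ℕ => P (a + 1) (k + 1 - j)) (1 - β)) :
    HasSum (fun j : ℕ => P (2 * a + 1) (k - j)) (1 - (1 / 2 * α + (1 - 1 / 2) * β)) := by
  have e : (fun j : ℕ => P (2 * a + 1) (k - j)) = fun j : ℕ =>
      1 / 2 * P a (k - 1 - j) + (1 - 1 / 2) * P (a + 1) (k + 1 - j) := by
    funext j
    rw [P_odd a ha, show k - (j : ℤ) - 1 = k - 1 - j by ring,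
      show k - (j : ℤ) + 1 = k + 1 - j by ring]
    ring
  rw [e, show 1 - (1 / 2 * α + (1 - 1 / 2) * β) = 1 / 2 * (1 - α) + (1 - 1 / 2) * (1 - β) by ring]
  exact (h1.mul_left _).add (h2.mul_left _)

lemma hasSum_ge (w : List Bool) :
    (∀ k : ℤ, HasSum (fun j : ℕ => P (val1 w) (k + j)) ((tlp (1 / 2) w).1 k)) ∧
    ∀ k : ℤ, HasSum (fun j : ℕ => P (val1 w + 1) (k + j)) ((tlp (1 / 2) w).2 k) := by
  induction w with
  | nil =>
    refine ⟨base_ge, fun k => ?_⟩
    show HasSum (fun j : ℕ => P (2 * 1) (k + j)) (one0 k)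
    rw [P_even 1 le_rfl]
    exact base_ge k
  | cons b w ih =>
    have hp := val1_pos w
    cases b with
    | true =>
      refine ⟨fun k => step_ge _ hp _ _ k (ih.1 _) (ih.2 _), fun k => ?_⟩
      show HasSum (fun j : ℕ => P (2 * (val1 w + 1)) (k + j)) _
      rw [P_even _ (by omega)]
      exact ih.2 k
    | false =>
      refine ⟨fun k => ?_, fun k => step_ge _ hp _ _ k (ih.1 _) (ih.2 _)⟩
      show HasSum (fun j : ℕ => P (2 * val1 w) (k + j)) _
      rw [P_even _ hp]
      exact ih.1 k

lemma hasSum_le (w : List Bool) :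
    (∀ k : ℤ, HasSum (fun j : ℕ => P (val1 w) (k - j)) (1 - (tlp (1 / 2) w).1 (k + 1))) ∧
    ∀ k : ℤ, HasSum (fun j : ℕ => P (val1 w + 1) (k - j)) (1 - (tlp (1 / 2) w).2 (k + 1)) := by
  induction w with
  | nil =>
    refine ⟨base_le, fun k => ?_⟩
    show HasSum (fun j : ℕ => P (2 * 1) (k - j)) (1 - one0 (k + 1))
    rw [P_even 1 le_rfl]
    exact base_le k
  | cons b w ih =>
    have hp := val1_pos w
    have h1 : ∀ k : ℤ, HasSum (fun j : ℕ => P (2 * val1 w + 1) (k - j))
        (1 - (1 / 2 * (tlp (1 / 2) w).1 (k + 1 - 1) +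
          (1 - 1 / 2) * (tlp (1 / 2) w).2 (k + 1 + 1))) := fun k => by
      refine step_le _ hp _ _ k ?_ (ih.2 _)
      have := ih.1 (k - 1)
      rwa [show k - 1 + 1 = k + 1 - 1 by ring] at this
    cases b with
    | true =>
      refine ⟨h1, fun k => ?_⟩
      show HasSum (fun j : ℕ => P (2 * (val1 w + 1)) (k - j)) _
      rw [P_even _ (by omega)]
      exact ih.2 k
    | false =>
      refine ⟨fun k => ?_, h1⟩
      show HasSum (fun j : ℕ => P (2 * val1 w) (k - j)) _
      rw [P_even _ hp]
      exact ih.1 k

lemma num_ge (v : List Bool) : HasSum (fun j : ℕ => P (num v) j) (pos (1 / 2) v) := by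
  have h := step_ge (val1 v.reverse) (val1_pos _) _ _ 0 ((hasSum_ge v.reverse).1 _)
    ((hasSum_ge v.reverse).2 _)
  rw [tail_pos (1 / 2) (by norm_num) (by norm_num) v] at h
  rw [num_eq]
  simpa using h

lemma num_le (v : List Bool) :
    HasSum (fun j : ℕ => P (num v) (-(j : ℤ))) (pos (1 / 2) (v.map not)) := by
  have h := step_le (val1 v.reverse) (val1_pos _) ((tlp (1 / 2) v.reverse).1 (1 - 1))
    ((tlp (1 / 2) v.reverse).2 (1 + 1)) 0
    (by simpa using (hasSum_le v.reverse).1 (0 - 1)) (by simpa using (hasSum_le v.reverse).2 (0 + 1))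
  have e := tail_one (1 / 2) (by norm_num) (by norm_num) v
  rw [e] at h
  rw [num_eq]
  have e2 : (1 : ℝ) - (1 - pos (1 - 1 / 2) (v.map not)) = pos (1 / 2) (v.map not) := by
    norm_num
  rw [e2] at h
  simpa using h

lemma val1_inj : ∀ w w' : List Bool, val1 w = val1 w' → w = w' := by
  intro w
  induction w with
  | nil =>
    intro w' h
    cases w' with
    | nil => rfl
    | cons b w' =>
      have := val1_pos w'
      rw [val1_cons] at h
      simp only [val1] at h
      omega
  | cons b w ih =>
    intro w' h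
    cases w' with
    | nil =>
      have := val1_pos w
      rw [val1_cons] at h
      simp only [val1] at h
      omega
    | cons b' w' =>
      rw [val1_cons, val1_cons] at h
      have hb : b = b' := by
        cases b <;> cases b' <;> simp only [Bool.toNat_true, Bool.toNat_false] at h ⊢ <;> omega
      subst hb
      rw [ih w' (by omega)]

lemma val1_range (w : List Bool) : 2 ^ w.length ≤ val1 w ∧ val1 w < 2 ^ (w.length + 1) := by
  induction w with
  | nil => simp [val1]
  | cons b w ih =>
    rw [val1_cons, List.length_cons, pow_succ 2 (w.length + 1), pow_succ 2 w.length]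
    rw [pow_succ] at ih
    have : b.toNat ≤ 1 := Bool.toNat_le b
    omega

lemma exists_val1 : ∀ a : ℕ, 1 ≤ a → ∃ w : List Bool, val1 w = a := by
  intro a
  induction a using Nat.strong_induction_on with
  | _ a ih =>
    intro ha
    rcases Nat.lt_or_ge a 2 with h | h
    · exact ⟨[], by simp only [val1]; omega⟩
    · obtain ⟨w, hw⟩ := ih (a / 2) (by omega) (by omega)
      rcases Nat.even_or_odd' a with ⟨c, hc | hc⟩
      · exact ⟨false :: w, by simp only [val1, hw]; omega⟩
      · exact ⟨true :: w, by simp only [val1, hw]; omega⟩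

/-- all words of length `m` -/
def words : ℕ → Finset (List Bool)
  | 0 => {[]}
  | m + 1 => (words m).image (List.cons true) ∪ (words m).image (List.cons false)

lemma mem_words (m : ℕ) : ∀ w : List Bool, w ∈ words m ↔ w.length = m := by
  induction m with
  | zero => intro w; simp [words]
  | succ m ih =>
    intro w
    simp only [words, mem_union, mem_image]
    constructor
    · rintro (⟨u, hu, rfl⟩ | ⟨u, hu, rfl⟩) <;> simp [(ih u).1 hu]
    · intro h
      cases w with
      | nil => simp at h
      | cons b u =>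
        have hu : u ∈ words m := (ih u).2 (by simpa using h)
        cases b
        · exact Or.inr ⟨u, hu, rfl⟩
        · exact Or.inl ⟨u, hu, rfl⟩

/-- words of length `m` with `k` zeros, first run of ones of length at least `a`, other runs of
length at least `j` -/
def AA (j m a k : ℕ) : Finset (List Bool) :=
  (words m).filter fun w => w.count false = k ∧ a ≤ (gp w).1 ∧ ∀ g ∈ (gp w).2, j ≤ g

lemma mem_AA (j m a k : ℕ) (w : List Bool) : w ∈ AA j m a k ↔
    w.length = m ∧ w.count false = k ∧ a ≤ (gp w).1 ∧ ∀ g ∈ (gp w).2, j ≤ g := by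
  unfold AA
  rw [mem_filter, mem_words]

lemma AA_succ (j m a k : ℕ) : AA j (m + 1) a k = (AA j m (a - 1) k).image (List.cons true) ∪
    (if a = 0 ∧ 1 ≤ k then (AA j m j (k - 1)).image (List.cons false) else ∅) := by
  ext w
  rw [mem_AA, mem_union, mem_image]
  cases w with
  | nil =>
    simp only [List.length_nil]
    constructor
    · rintro ⟨h, -⟩; omega
    · rintro (⟨u, -, h⟩ | h)
      · exact absurd h (by simp)
      · split_ifs at h
        · rw [mem_image] at h
          obtain ⟨u, -, h⟩ := h
          exact absurd h (by simp)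
        · simp at h
  | cons b w =>
    cases b with
    | true =>
      have e : (gp (true :: w)) = ((gp w).1 + 1, (gp w).2) := rfl
      rw [e, List.count_cons_of_ne (by decide)]
      constructor
      · rintro ⟨h1, h2, h3, h4⟩
        refine Or.inl ⟨w, (mem_AA _ _ _ _ _).2 ⟨by simpa using h1, h2, ?_, h4⟩, rfl⟩
        simp only at h3; omega
      · rintro (⟨u, hu, h⟩ | h)
        · have hw : u = w := by simpa using h
          subst hw
          obtain ⟨h1, h2, h3, h4⟩ := (mem_AA _ _ _ _ _).1 hu
          exact ⟨by simp [h1], h2, by simp only; omega, h4⟩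
        · split_ifs at h
          · rw [mem_image] at h
            obtain ⟨u, -, h⟩ := h
            exact absurd h (by simp)
          · simp at h
    | false =>
      have e : (gp (false :: w)) = (0, (gp w).1 :: (gp w).2) := rfl
      rw [e, List.count_cons_self]
      constructor
      · rintro ⟨h1, h2, h3, h4⟩
        simp only at h3 h4
        refine Or.inr ?_
        rw [if_pos ⟨by omega, by omega⟩, mem_image]
        refine ⟨w, (mem_AA _ _ _ _ _).2 ⟨by simpa using h1, by omega, ?_, ?_⟩, rfl⟩
        · exact h4 _ List.mem_cons_self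
        · exact fun g hg => h4 g (List.mem_cons_of_mem _ hg)
      · rintro (⟨u, hu, h⟩ | h)
        · exact absurd h (by simp)
        · split_ifs at h with hc
          · rw [mem_image] at h
            obtain ⟨u, hu, h⟩ := h
            have hw : u = w := by simpa using h
            subst hw
            obtain ⟨h1, h2, h3, h4⟩ := (mem_AA _ _ _ _ _).1 hu
            refine ⟨by simp [h1], by omega, by simp only; omega, ?_⟩
            intro g hg
            rcases List.mem_cons.1 hg with rfl | hg
            · exact h3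
            · exact h4 g hg
          · simp at h

lemma AA_card (j : ℕ) : ∀ m a k : ℕ, (AA j m a k).card =
    if a + (j + 1) * k ≤ m then (m - a - j * k).choose k else 0 := by
  intro m
  induction m with
  | zero =>
    intro a k
    by_cases h : a = 0 ∧ k = 0
    · obtain ⟨rfl, rfl⟩ := h
      have : AA j 0 0 0 = {[]} := by
        ext w
        rw [mem_AA, mem_singleton]
        constructor
        · rintro ⟨h, -⟩; exact List.length_eq_zero_iff.1 h
        · rintro rfl; simp [gp]
      rw [this]; simp
    · have hz : ¬ (a + (j + 1) * k ≤ 0) := by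
        intro h'
        apply h
        have h1 : a = 0 := by omega
        have h2 : (j + 1) * k = 0 := by omega
        rcases Nat.mul_eq_zero.1 h2 with h3 | h3
        · omega
        · exact ⟨h1, h3⟩
      rw [if_neg hz, card_eq_zero, eq_empty_iff_forall_notMem]
      intro w hw
      obtain ⟨h1, h2, h3, -⟩ := (mem_AA _ _ _ _ _).1 hw
      have hw0 := List.length_eq_zero_iff.1 h1
      subst hw0
      apply h
      simp [gp] at h2 h3
      omega
  | succ m ih =>
    intro a k
    have i1 : Function.Injective (List.cons true) := List.cons_injective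
    have i2 : Function.Injective (List.cons false) := List.cons_injective
    rw [AA_succ]
    by_cases hc : a = 0 ∧ 1 ≤ k
    · rw [if_pos hc, card_union_of_disjoint, card_image_of_injective _ i1,
        card_image_of_injective _ i2, ih, ih]
      · obtain ⟨rfl, hk⟩ := hc
        obtain ⟨k, rfl⟩ := Nat.exists_eq_add_of_le' hk
        simp only [Nat.zero_add, Nat.zero_sub, Nat.add_sub_cancel, Nat.sub_zero]
        have e1 : (j + 1) * (k + 1) = (j + 1) * k + j + 1 := by ring
        have e2 : j * (k + 1) = j * k + j := by ring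
        have e3 : (j + 1) * k = j * k + k := by ring
        rw [e1, e2, e3]
        rcases Nat.lt_trichotomy (j * k + k + j) m with h | h | h
        · rw [if_pos (by omega), if_pos (by omega), if_pos (by omega),
            show m + 1 - (j * k + j) = (m - (j * k + j)) + 1 by omega,
            show m - j - j * k = m - (j * k + j) by omega, Nat.choose_succ_succ, add_comm]
        · rw [if_neg (by omega), if_pos (by omega), if_pos (by omega),
            show m + 1 - (j * k + j) = k + 1 by omega, show m - j - j * k = k by omega]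
          simp
        · rw [if_neg (by omega), if_neg (by omega), if_neg (by omega)]
      · rw [disjoint_left]
        intro x hx hy
        rw [mem_image] at hx hy
        obtain ⟨u, -, rfl⟩ := hx
        obtain ⟨u', -, h⟩ := hy
        exact absurd h (by simp)
    · rw [if_neg hc, union_empty, card_image_of_injective _ i1, ih]
      rcases Nat.eq_zero_or_pos a with h0 | h0
      · subst h0
        have hk : k = 0 := by
          by_contra hk
          exact hc ⟨rfl, by omega⟩
        subst hk
        simp
      · obtain ⟨a, rfl⟩ := Nat.exists_eq_add_of_le' h0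
        simp only [Nat.add_sub_cancel]
        by_cases h : a + (j + 1) * k ≤ m
        · rw [if_pos h, if_pos (by omega), show m + 1 - (a + 1) - j * k = m - a - j * k by omega]
        · rw [if_neg h, if_neg (by omega)]

/-- the number of words of length `m` all of whose runs of ones are long -/
lemma card_long (m : ℕ) : ((words m).filter fun w => w.count false ≤ (gp w).1 ∧
    ∀ g ∈ (gp w).2, w.count false ≤ g).card =
      ∑ k ∈ range (m + 1), (m - k * (k + 1)).choose k := by
  rw [card_eq_sum_card_fiberwise (f := fun w : List Bool => w.count false) (t := range (m + 1))]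
  · refine sum_congr rfl fun k _ => ?_
    have e : (((words m).filter fun w => w.count false ≤ (gp w).1 ∧
        ∀ g ∈ (gp w).2, w.count false ≤ g).filter fun w => w.count false = k) = AA k m k k := by
      ext w
      rw [mem_filter, mem_filter, mem_AA, mem_words]
      constructor
      · rintro ⟨⟨h1, h2, h3⟩, rfl⟩
        exact ⟨h1, rfl, h2, h3⟩
      · rintro ⟨h1, rfl, h2, h3⟩
        exact ⟨⟨h1, h2, h3⟩, rfl⟩
    rw [e, AA_card]
    have e1 : (k + 1) * k = k * k + k := by ring
    have e2 : k * (k + 1) = k * k + k := by ring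
    rw [e1, e2]
    split_ifs with h
    · congr 1
      omega
    · rw [Nat.choose_eq_zero_of_lt]
      by_contra hlt
      have : k ≤ m - (k * k + k) := by omega
      rcases Nat.eq_zero_or_pos k with h0 | h0
      · subst h0; omega
      · omega
  · intro w hw
    have hw' := (mem_filter.1 (mem_coe.1 hw)).1
    rw [mem_words] at hw'
    have := List.count_le_length (a := false) (l := w)
    simp only [coe_range, Set.mem_Iio]
    omega

lemma P_zero (d : ℤ) : P 0 d = if d = 0 then 1 else 0 := by
  rw [P, if_pos (by omega)]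

lemma P_nonneg (t : ℕ) : ∀ d : ℤ, 0 ≤ P t d := by
  induction t using Nat.strong_induction_on with
  | _ t ih =>
    intro d
    rcases Nat.lt_or_ge t 2 with h | h
    · interval_cases t
      · rw [P_zero]; split_ifs <;> norm_num
      · rw [P_one]; split_ifs <;> norm_num
    · rcases Nat.even_or_odd' t with ⟨c, hc | hc⟩
      · rw [hc, P_even c (by omega)]
        exact ih c (by omega) d
      · rw [hc, P_odd c (by omega)]
        have h1 := ih c (by omega) (d - 1)
        have h2 := ih (c + 1) (by omega) (d + 1)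
        linarith

lemma P_total (t : ℕ) : HasSum (P t) 1 := by
  induction t using Nat.strong_induction_on with
  | _ t ih =>
    rcases Nat.lt_or_ge t 2 with h | h
    · have e : P t = fun d : ℤ => if d = 0 then (1 : ℝ) else 0 := by
        funext d
        interval_cases t
        · exact P_zero d
        · exact P_one d
      rw [e]
      exact hasSum_ite_eq 0 1
    · rcases Nat.even_or_odd' t with ⟨c, hc | hc⟩
      · rw [hc, P_even c (by omega)]
        exact ih c (by omega)
      · have h1 := (Equiv.subRight (1 : ℤ)).hasSum_iff.mpr (ih c (by omega))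
        have h2 := (Equiv.addRight (1 : ℤ)).hasSum_iff.mpr (ih (c + 1) (by omega))
        have h3 := (h1.div_const 2).add (h2.div_const 2)
        have e : P t = fun d : ℤ => (P c ∘ (Equiv.subRight (1 : ℤ))) d / 2 +
            (P (c + 1) ∘ (Equiv.addRight (1 : ℤ))) d / 2 := by
          funext d
          rw [hc, P_odd c (by omega)]
          rfl
        rw [e]
        have h4 : (1 : ℝ) / 2 + 1 / 2 = 1 := by norm_num
        rw [h4] at h3
        exact h3

lemma pos_half (v : List Bool) : 1 / 2 ≤ pos (1 / 2) v := pos_ge (1 / 2) le_rfl (by norm_num) v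

lemma exists_num (t : ℕ) (ht : Odd t) (h3 : 3 ≤ t) : ∃ v : List Bool, num v = t := by
  obtain ⟨c, hc⟩ := ht
  obtain ⟨w, hw⟩ := exists_val1 c (by omega)
  exact ⟨w.reverse, by rw [num_eq, List.reverse_reverse, hw, hc]⟩

lemma num_inj (v v' : List Bool) (h : num v = num v') : v = v' := by
  rw [num_eq, num_eq] at h
  have := val1_inj _ _ (show val1 v.reverse = val1 v'.reverse by omega)
  exact List.reverse_injective this

lemma median (t : ℕ) (ht : 1 ≤ t) :
    1 / 2 ≤ ∑' d : ℕ, P t d ∧ 1 / 2 ≤ ∑' d : ℕ, P t (-(d : ℤ)) := by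
  induction t using Nat.strong_induction_on with
  | _ t ih =>
    rcases Nat.even_or_odd' t with ⟨c, hc | hc⟩
    · rw [hc, P_even c (by omega)]
      exact ih c (by omega) (by omega)
    · rcases Nat.eq_zero_or_pos c with h0 | h0
      · have h1 : t = 1 := by omega
        subst h1
        have a := base_ge 0
        have b := base_le 0
        simp only [zero_add, zero_sub] at a b
        rw [a.tsum_eq, b.tsum_eq]
        norm_num [one0]
      · obtain ⟨v, rfl⟩ := exists_num t ⟨c, hc⟩ (by omega)
        rw [(num_ge v).tsum_eq, (num_le v).tsum_eq]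
        exact ⟨pos_half v, pos_half _⟩

lemma long_of_not_mem (v : List Bool) (h : false ∉ v) : LongRuns false v := by
  intro g _
  rw [List.count_eq_zero.mpr h]
  exact Nat.zero_le _

lemma eq_iff (v : List Bool) : pos (1 / 2) v = 1 / 2 ↔ LongRuns false v := by
  rw [pos_eq_iff (1 / 2) le_rfl (by norm_num)]
  constructor
  · rintro (h | ⟨-, h⟩)
    · exact long_of_not_mem v h
    · exact h
  · exact fun h => Or.inr ⟨rfl, h⟩

lemma digits_val1 (w : List Bool) : Nat.digits 2 (val1 w) = w.map Bool.toNat ++ [1] := by
  induction w with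
  | nil => simp [val1]
  | cons b w ih =>
    have hb : b.toNat < 2 := Bool.toNat_lt b
    have := val1_pos w
    rw [val1_cons, add_comm, Nat.digits_add 2 (by norm_num) _ _ hb (Or.inr (by omega)), ih]
    rfl

lemma digits_num (v : List Bool) :
    Nat.digits 2 (num v) = 1 :: (v.reverse.map Bool.toNat ++ [1]) := by
  have := digits_val1 (true :: v.reverse)
  rw [num_eq]
  simpa [val1] using this

open Classical in
lemma card_eq (m : ℕ) : ((Ico (2 ^ (m + 1)) (2 ^ (m + 2))).filter fun t =>
    Odd t ∧ ∑' d : ℕ, P t d = 1 / 2).card = ∑ j ∈ range (m + 1), (m - j * (j + 1)).choose j := by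
  rw [← card_long]
  symm
  apply card_bij (fun w _ => 2 * val1 w + 1)
  · intro w hw
    obtain ⟨h1, h2, h3⟩ := mem_filter.1 hw
    rw [mem_words] at h1
    have hr := val1_range w
    rw [h1] at hr
    rw [mem_filter, mem_Ico]
    refine ⟨⟨by rw [pow_succ]; omega, by rw [pow_succ]; omega⟩, ⟨_, rfl⟩, ?_⟩
    have hn : 2 * val1 w + 1 = num w.reverse := by rw [num_eq, List.reverse_reverse]
    rw [hn, (num_ge _).tsum_eq, eq_iff, longRuns_iff, List.reverse_reverse]
    intro g hg
    rcases List.mem_cons.1 hg with rfl | hg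
    · exact h2
    · exact h3 g hg
  · intro w _ w' _ h
    exact val1_inj w w' (by omega)
  · intro t ht
    obtain ⟨h1, h2, h3⟩ := mem_filter.1 ht
    rw [mem_Ico] at h1
    have h4 : 2 ≤ 2 ^ (m + 1) := by
      rw [pow_succ]
      have := Nat.one_le_two_pow (n := m)
      omega
    have h5 : 3 ≤ t := by
      obtain ⟨c, hc⟩ := h2
      omega
    obtain ⟨v, rfl⟩ := exists_num t h2 h5
    rw [(num_ge _).tsum_eq, eq_iff, longRuns_iff] at h3
    refine ⟨v.reverse, ?_, (num_eq v).symm⟩
    rw [mem_filter, mem_words]
    have hr := val1_range v.reverse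
    rw [num_eq] at h1
    refine ⟨?_, h3 _ List.mem_cons_self, fun g hg => h3 g (List.mem_cons_of_mem _ hg)⟩
    have a : 2 ^ v.reverse.length < 2 ^ (m + 1) := by
      have : 2 ^ (m + 2) = 2 * 2 ^ (m + 1) := by ring
      omega
    have b : 2 ^ m < 2 ^ (v.reverse.length + 1) := by
      have : 2 ^ (m + 1) = 2 * 2 ^ m := by ring
      omega
    have a' := (Nat.pow_lt_pow_iff_right (by norm_num : 1 < 2)).1 a
    have b' := (Nat.pow_lt_pow_iff_right (by norm_num : 1 < 2)).1 b
    omega

open Classical in
/-- **The median inequality for the sum-of-digits measures, its equality cases, and their number.**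
1. `P` is the family of the question: `P_1 = δ_0`, `P_{2n} = P_n`,
`P_{2n+1}(d) = P_n(d-1)/2 + P_{n+1}(d+1)/2`; each `P_t` is a probability measure on `ℤ`.
2. (Q1) For every `t ≥ 1`: `P_t(ℕ) ≥ 1/2` and `P_t(-ℕ) ≥ 1/2`.
3. Every odd `t ≥ 3` is `num v` for exactly one word `v` (`true` = digit one, `false` = digit
zero), its binary digits being `1 v 1`; and then `P_t(ℕ) = 1/2` if and only if each of the runs of
ones of `v` (the pieces, possibly empty, into which the zeros cut `v`) is at least as long as the
number of zeros of `v`.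
4. The number of the odd `t` with `2^(m+1) ≤ t < 2^(m+2)` and `P_t(ℕ) = 1/2` is
`∑_j binomial (m - j (j+1)) j`. -/
theorem result :
    ((∀ d : ℤ, P 1 d = if d = 0 then 1 else 0) ∧
      (∀ n, 1 ≤ n → ∀ d : ℤ, P (2 * n) d = P n d) ∧
      (∀ n, 1 ≤ n → ∀ d : ℤ, P (2 * n + 1) d = P n (d - 1) / 2 + P (n + 1) (d + 1) / 2) ∧
      ∀ t, (∀ d : ℤ, 0 ≤ P t d) ∧ HasSum (P t) 1) ∧
    (∀ t : ℕ, 1 ≤ t → 1 / 2 ≤ ∑' d : ℕ, P t d ∧ 1 / 2 ≤ ∑' d : ℕ, P t (-(d : ℤ))) ∧
    (∀ t : ℕ, Odd t → 3 ≤ t → ∃! v : List Bool, num v = t) ∧
    (∀ v : List Bool, Nat.digits 2 (num v) = 1 :: (v.reverse.map Bool.toNat ++ [1]) ∧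
      (∑' d : ℕ, P (num v) d = 1 / 2 ↔ ∀ g ∈ v.splitOn false, v.count false ≤ g.length)) ∧
    ∀ m : ℕ, ((Ico (2 ^ (m + 1)) (2 ^ (m + 2))).filter fun t =>
      Odd t ∧ ∑' d : ℕ, P t d = 1 / 2).card = ∑ j ∈ range (m + 1), (m - j * (j + 1)).choose j := by
  refine ⟨⟨P_one, fun n hn d => by rw [P_even n hn], P_odd, fun t => ⟨P_nonneg t, P_total t⟩⟩,
    median, ?_, fun v => ⟨digits_num v, ?_⟩, card_eq⟩
  · intro t h1 h2
    obtain ⟨v, hv⟩ := exists_num t h1 h2
    exact ⟨v, hv, fun v' hv' => num_inj _ _ (hv'.trans hv.symm)⟩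
  · rw [(num_ge v).tsum_eq]
    exact eq_iff v

end Pool.Agent.Results.MP_23af5d_nt.MedianInequality
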